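import Pool.Agent.Y134.PG.Defs

/-!
# Roots of unity among the roots of an integral polynomial and cyclotomic factors modulo `p`
-/

set_option autoImplicit false

namespace Pool.Agent.Y134.PG

open Finset Polynomial

lemma cyc_map {R S : Type} [CommRing R] [CommRing S] (f : R →+* S) (Q : R) (n : ℕ) :
    (cyc R Q n).map f = cyc S (f Q) n := by
  unfold cyc
  rw [Polynomial.map_comp, map_cyclotomic, Polynomial.map_mul, map_C, map_X]

lemma coeff_zero_cyc (Q : ℤ) (n : ℕ) : IsUnit ((cyc ℤ Q n).coeff 0) := by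
  rw [coeff_zero_eq_eval_zero, cyc, eval_comp, eval_mul, eval_X, mul_zero,
    ← coeff_zero_eq_eval_zero]
  rcases Nat.lt_or_ge 1 n with h | h
  · rw [cyclotomic_coeff_zero ℤ h]
    exact isUnit_one
  · interval_cases n
    · simp
    · simp

lemma primitive_of_unit {L : ℤ[X]} (h : IsUnit (L.coeff 0)) : L.IsPrimitive := by
  intro r hr
  rw [C_dvd_iff_dvd_coeff] at hr
  exact isUnit_of_dvd_unit (hr 0) h

lemma cyc_dvd {E : Type} [Field E] [CharZero E] {Q : ℤ} (hQ : Q ≠ 0) {L : ℤ[X]}
    (hL : IsUnit (L.coeff 0)) {t : E} (ht : (L.map (Int.castRingHom E)).eval t = 0) {n : ℕ}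
    (hn : 0 < n) (hζ : IsPrimitiveRoot ((Q : E) * t) n) : cyc ℤ Q n ∣ L := by
  rw [IsPrimitive.Int.dvd_iff_map_cast_dvd_map_cast _ _ (primitive_of_unit (coeff_zero_cyc Q n)),
    cyc_map]
  have hQ' : (Q : ℚ) ≠ 0 := Int.cast_ne_zero.2 hQ
  have hQE : (Q : E) ≠ 0 := Int.cast_ne_zero.2 hQ
  have h1 : cyclotomic n ℚ ∣ (L.map (Int.castRingHom ℚ)).comp (C (Q : ℚ)⁻¹ * X) := by
    rw [cyclotomic_eq_minpoly_rat hζ hn]
    apply minpoly.dvd
    rw [aeval_comp]
    have h2 : aeval ((Q : E) * t) (C (Q : ℚ)⁻¹ * X) = t := by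
      rw [map_mul, aeval_C, aeval_X, ← mul_assoc]
      have h3 : (algebraMap ℚ E) (Q : ℚ)⁻¹ * (Q : E) = 1 := by
        rw [map_inv₀, map_intCast]
        exact inv_mul_cancel₀ hQE
      rw [h3, one_mul]
    rw [h2, aeval_def, eval₂_map]
    rw [← ht, eval_map]
    congr 1
    exact RingHom.ext_int _ _
  obtain ⟨G, hG⟩ := h1
  refine ⟨G.comp (C (Q : ℚ) * X), ?_⟩
  have h4 := congrArg (fun P => P.comp (C (Q : ℚ) * X)) hG
  simp only [mul_comp, comp_assoc] at h4
  have h5 : (C (Q : ℚ)⁻¹ * X : ℚ[X]).comp (C (Q : ℚ) * X) = X := by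
    rw [mul_comp, C_comp, X_comp, ← mul_assoc, ← C_mul, inv_mul_cancel₀ hQ', C_1, one_mul]
  have h6 : (C (Q : ℚ)⁻¹ : ℚ[X]).comp (C (Q : ℚ) * X) * X.comp (C (Q : ℚ) * X) = X := by
    rw [← mul_comp, h5]
  rw [h6, comp_X] at h4
  rw [h4]
  rfl

/-- The number of roots `t` with `(Q t) ^ j = 1`. -/
noncomputable def cnt (E : Type) [Field E] (Q : ℤ) (j : ℕ) (L : ℤ[X]) : ℕ := by
  classical
  exact ((L.map (Int.castRingHom E)).roots.filter fun t => ((Q : E) * t) ^ j = 1).card

lemma cnt_mul {E : Type} [Field E] [CharZero E] (Q : ℤ) (j : ℕ) {L L' : ℤ[X]} (h : L ≠ 0)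
    (h' : L' ≠ 0) : cnt E Q j (L * L') = cnt E Q j L + cnt E Q j L' := by
  have hinj : Function.Injective (Int.castRingHom E) := RingHom.injective_int _
  unfold cnt
  rw [Polynomial.map_mul, roots_mul, Multiset.filter_add, Multiset.card_add]
  exact mul_ne_zero ((Polynomial.map_ne_zero_iff hinj).2 h) ((Polynomial.map_ne_zero_iff hinj).2 h')

lemma natDegree_cyc {R : Type} [Field R] {Q : R} (hQ : Q ≠ 0) (n : ℕ) :
    (cyc R Q n).natDegree = n.totient := by
  unfold cyc
  rw [natDegree_comp, natDegree_cyclotomic, natDegree_C_mul_X Q hQ, mul_one]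

lemma cnt_cyc {E : Type} [Field E] [CharZero E] [IsAlgClosed E] {Q : ℤ} (hQ : Q ≠ 0) {j n : ℕ}
    (hn : 0 < n) (hnj : n ∣ j) : cnt E Q j (cyc ℤ Q n) = n.totient := by
  classical
  have hQE : (Q : E) ≠ 0 := Int.cast_ne_zero.2 hQ
  unfold cnt
  rw [cyc_map]
  have h1 : (Int.castRingHom E) Q = (Q : E) := rfl
  rw [h1, Multiset.filter_eq_self.2, splits_iff_card_roots.1 (IsAlgClosed.splits _),
    natDegree_cyc hQE]
  intro t ht
  have h2 := (mem_roots'.1 ht).2
  rw [IsRoot, cyc, eval_comp, eval_mul, eval_C, eval_X] at h2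
  have : NeZero (n : E) := ⟨Nat.cast_ne_zero.2 (by omega)⟩
  have h3 := (isRoot_cyclotomic_iff.1 h2).pow_eq_one
  obtain ⟨c, rfl⟩ := hnj
  rw [pow_mul, h3, one_pow]

/-- All roots `t` with `(Q t) ^ j = 1` belong to factors `cyc Q n`, `n ∣ j`. -/
theorem peel {E : Type} [Field E] [CharZero E] [IsAlgClosed E] {Q : ℤ} (hQ : Q ≠ 0) {j : ℕ}
    (hj : 1 ≤ j) : ∀ (N : ℕ) (L : ℤ[X]), L.natDegree = N → IsUnit (L.coeff 0) →
    ∃ (ns : Multiset ℕ) (D : ℤ[X]), L = (ns.map fun n => cyc ℤ Q n).prod * D ∧
      (∀ n ∈ ns, n ∣ j) ∧ cnt E Q j L = (ns.map Nat.totient).sum := by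
  classical
  have hinj : Function.Injective (Int.castRingHom E) := RingHom.injective_int _
  intro N
  induction N using Nat.strong_induction_on with
  | _ N ih =>
    intro L hN hL
    have hL0 : L ≠ 0 := by
      rintro rfl
      rw [coeff_zero] at hL
      exact not_isUnit_zero hL
    by_cases h0 : cnt E Q j L = 0
    · exact ⟨0, L, by simp, by simp, by simp [h0]⟩
    · have h1 : 0 < ((L.map (Int.castRingHom E)).roots.filter
          fun t => ((Q : E) * t) ^ j = 1).card := Nat.pos_of_ne_zero (by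
            unfold cnt at h0
            convert h0)
      obtain ⟨t, ht⟩ := Multiset.card_pos_iff_exists_mem.1 h1
      rw [Multiset.mem_filter] at ht
      obtain ⟨ht1, ht2⟩ := ht
      have hjpos : 0 < j := by omega
      have hn : 0 < orderOf ((Q : E) * t) := orderOf_pos_iff.2
        (isOfFinOrder_iff_pow_eq_one.2 ⟨j, hjpos, ht2⟩)
      have hnj : orderOf ((Q : E) * t) ∣ j := orderOf_dvd_of_pow_eq_one ht2
      obtain ⟨L₁, hL₁⟩ := cyc_dvd hQ hL (mem_roots'.1 ht1).2 hn (IsPrimitiveRoot.orderOf _)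
      set n := orderOf ((Q : E) * t) with hnd
      have hu : IsUnit (L₁.coeff 0) := by
        rw [hL₁, mul_coeff_zero] at hL
        exact isUnit_of_mul_isUnit_right hL
      have hc0 : cyc ℤ Q n ≠ 0 := by
        intro h
        rw [h, zero_mul] at hL₁
        exact hL0 hL₁
      have hL₁0 : L₁ ≠ 0 := by
        rintro rfl
        rw [mul_zero] at hL₁
        exact hL0 hL₁
      have hdeg : (cyc ℤ Q n).natDegree = n.totient := by
        rw [← natDegree_map_eq_of_injective hinj, cyc_map]
        exact natDegree_cyc (Int.cast_ne_zero.2 hQ) n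
      have hlt : L₁.natDegree < N := by
        rw [← hN, hL₁, natDegree_mul hc0 hL₁0, hdeg]
        have := Nat.totient_pos.2 hn
        omega
      obtain ⟨ns, D, h2, h3, h4⟩ := ih _ hlt L₁ rfl hu
      refine ⟨n ::ₘ ns, D, ?_, ?_, ?_⟩
      · rw [Multiset.map_cons, Multiset.prod_cons, mul_assoc, ← h2]
        exact hL₁
      · intro m hm
        rcases Multiset.mem_cons.1 hm with rfl | hm
        · exact hnj
        · exact h3 m hm
      · rw [hL₁, cnt_mul Q j hc0 hL₁0, cnt_cyc hQ hn hnj, h4, Multiset.map_cons,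
          Multiset.sum_cons]

/-- Reduction of the factors modulo `p`. -/
lemma cyc_red {p : ℕ} (hp : p.Prime) (Q : ZMod p) {n : ℕ} (hn : 0 < n) :
    cyc (ZMod p) Q n = cyc (ZMod p) Q (n / p ^ n.factorization p)
      ^ (p ^ n.factorization p).totient := by
  have : Fact p.Prime := ⟨hp⟩
  unfold cyc
  have hM : ¬ p ∣ n / p ^ n.factorization p := Nat.not_dvd_ordCompl hp hn.ne'
  have hn2 : p ^ n.factorization p * (n / p ^ n.factorization p) = n := Nat.ordProj_mul_ordCompl_eq_self n p
  rcases Nat.eq_zero_or_pos (n.factorization p) with h | h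
  · rw [h]
    simp
  · have h1 := cyclotomic_mul_prime_pow_eq (ZMod p) hM h
    rw [hn2] at h1
    rw [h1, Nat.totient_prime_pow hp h, pow_comp]
    congr 1
    obtain ⟨k, hk⟩ : ∃ k, n.factorization p = k + 1 := ⟨n.factorization p - 1, by omega⟩
    rw [hk, Nat.add_sub_cancel, pow_succ, Nat.mul_sub, mul_one]

/-- The bound by the cyclotomic factors modulo `p`. -/
theorem cnt_le {p : ℕ} (hp : p.Prime) {E : Type} [Field E] [CharZero E] [IsAlgClosed E] {Q : ℤ}
    (hQ : Q ≠ 0) {j : ℕ} (hj : 1 ≤ j) (L : ℤ[X]) (hL : L.coeff 0 = 1) (e : ℕ → ℕ)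
    (he : ∀ M ∈ j.divisors, ¬ p ∣ M →
      ¬ cyc (ZMod p) (Q : ZMod p) M ^ (e M + 1) ∣ L.map (Int.castRingHom (ZMod p))) :
    cnt E Q j L ≤ ∑ M ∈ j.divisors.filter (fun M => ¬ p ∣ M), M.totient * e M := by
  classical
  obtain ⟨ns, D, h1, h2, h3⟩ := peel (E := E) hQ hj _ L rfl (by rw [hL]; exact isUnit_one)
  let μ : ℕ → ℕ := fun n => n / p ^ n.factorization p
  let c : ℕ → ℕ := fun M => ((ns.filter fun n => μ n = M).map
    fun n => (p ^ n.factorization p).totient).sum
  have hpos : ∀ n ∈ ns, 0 < n := fun n hn => Nat.pos_of_dvd_of_pos (h2 n hn) (by omega)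
  have hμ : ∀ n ∈ ns, μ n ∈ j.divisors.filter (fun M => ¬ p ∣ M) := by
    intro n hn
    rw [mem_filter, Nat.mem_divisors]
    exact ⟨⟨(Nat.ordCompl_dvd n p).trans (h2 n hn), by omega⟩,
      Nat.not_dvd_ordCompl hp (hpos n hn).ne'⟩
  -- the number in terms of `c`
  have h4 : (ns.map Nat.totient).sum = ∑ M ∈ j.divisors.filter (fun M => ¬ p ∣ M),
      M.totient * c M := by
    have key : ∀ ms : Multiset ℕ, (∀ n ∈ ms, n ∈ ns) → (ms.map Nat.totient).sum
        = ∑ M ∈ j.divisors.filter (fun M => ¬ p ∣ M), M.totient *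
          ((ms.filter fun n => μ n = M).map fun n => (p ^ n.factorization p).totient).sum := by
      intro ms
      induction ms using Multiset.induction_on with
      | empty => simp
      | cons n ms ih =>
        intro hms
        have hn := hms n (Multiset.mem_cons_self n ms)
        rw [Multiset.map_cons, Multiset.sum_cons, ih fun m hm => hms m (Multiset.mem_cons_of_mem hm)]
        have h5 : ∀ M, M.totient * ((((n ::ₘ ms).filter fun n => μ n = M).map
            fun n => (p ^ n.factorization p).totient).sum)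
            = (if μ n = M then M.totient * (p ^ n.factorization p).totient else 0)
              + M.totient * (((ms.filter fun n => μ n = M).map
                fun n => (p ^ n.factorization p).totient).sum) := by
          intro M
          by_cases hM : μ n = M
          · rw [Multiset.filter_cons_of_pos (p := fun n => μ n = M) ms hM, Multiset.map_cons, Multiset.sum_cons, if_pos hM,
              mul_add]
          · rw [Multiset.filter_cons_of_neg (p := fun n => μ n = M) ms hM, if_neg hM, zero_add]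
        simp only [h5, sum_add_distrib]
        rw [sum_ite_eq, if_pos (hμ n hn)]
        congr 1
        have h6 : (μ n).Coprime (p ^ n.factorization p) := by
          apply Nat.Coprime.pow_right
          exact ((Nat.Prime.coprime_iff_not_dvd hp).2
            (Nat.not_dvd_ordCompl hp (hpos n hn).ne')).symm
        rw [← Nat.totient_mul h6]
        congr 1
        rw [mul_comm]
        exact (Nat.ordProj_mul_ordCompl_eq_self n p).symm
    exact key ns fun n hn => hn
  rw [h3, h4]
  refine sum_le_sum fun M hM => Nat.mul_le_mul_left _ ?_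
  rw [mem_filter] at hM
  by_contra hlt
  rw [not_le] at hlt
  refine he M hM.1 hM.2 ?_
  refine (pow_dvd_pow _ (show e M + 1 ≤ c M by omega)).trans ?_
  have h7 : cyc (ZMod p) (Q : ZMod p) M ^ c M ∣ (ns.map fun n => cyc (ZMod p) (Q : ZMod p) n).prod := by
    have key : ∀ ms : Multiset ℕ, (∀ n ∈ ms, n ∈ ns) → cyc (ZMod p) (Q : ZMod p) M
        ^ (((ms.filter fun n => μ n = M).map fun n => (p ^ n.factorization p).totient).sum)
        ∣ (ms.map fun n => cyc (ZMod p) (Q : ZMod p) n).prod := by
      intro ms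
      induction ms using Multiset.induction_on with
      | empty => simp
      | cons n ms ih =>
        intro hms
        have hn := hms n (Multiset.mem_cons_self n ms)
        have h8 := ih fun m hm => hms m (Multiset.mem_cons_of_mem hm)
        rw [Multiset.map_cons (fun n => cyc (ZMod p) (Q : ZMod p) n), Multiset.prod_cons]
        by_cases hM : μ n = M
        · rw [Multiset.filter_cons_of_pos (p := fun n => μ n = M) ms hM, Multiset.map_cons,
            Multiset.sum_cons, pow_add]
          refine mul_dvd_mul ?_ h8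
          rw [cyc_red hp (Q : ZMod p) (hpos n hn)]
          have : n / p ^ n.factorization p = M := hM
          rw [this]
        · rw [Multiset.filter_cons_of_neg (p := fun n => μ n = M) ms hM]
          exact h8.trans (dvd_mul_left _ _)
    exact key ns fun n hn => hn
  refine h7.trans ?_
  have h9 : L.map (Int.castRingHom (ZMod p))
      = (ns.map fun n => cyc (ZMod p) (Q : ZMod p) n).prod * D.map (Int.castRingHom (ZMod p)) := by
    rw [h1, Polynomial.map_mul, ← Polynomial.coe_mapRingHom, map_multiset_prod, Multiset.map_map]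
    congr 2
    refine Multiset.map_congr rfl fun n _ => ?_
    exact cyc_map _ Q n
  rw [h9]
  exact dvd_mul_right _ _

end Pool.Agent.Y134.PG
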