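import Pool.Agent.Y134.PG.Dyn

/-!
# The number of stable orbits and traces on the invariants
-/

set_option autoImplicit false

namespace Pool.Agent.Y134.PG

open Finset Function

section
variable {G : Type} [Group G] [Fintype G] {S : Type} [MulAction G S]

/-- `∑_g #{x | F^m x = g x} = |G| · #{stable orbits}`. -/
theorem sum_twisted {F : S → S} (hc : ∀ (g : G) (x : S), F (g • x) = g • F x) (m : ℕ)
    (hfin : Finite {x : S // F^[m] x ∈ MulAction.orbit G x}) :
    ∑ g : G, Nat.card {x : S // F^[m] x = g • x} = Fintype.card G * quotPoints G F m := by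
  classical
  let T : Set S := {x | F^[m] x ∈ MulAction.orbit G x}
  have hT : ∀ (g : G) (x : S), x ∈ T → g • x ∈ T := by
    intro g x hx
    obtain ⟨h, hh⟩ := hx
    have hh' : h • x = F^[m] x := hh
    change F^[m] (g • x) ∈ MulAction.orbit G (g • x)
    rw [iterate_comm hc, ← hh']
    exact ⟨g * h * g⁻¹, by
      change (g * h * g⁻¹) • g • x = g • h • x
      rw [smul_smul, smul_smul, inv_mul_cancel_right]⟩
  have hfT : Finite T := hfin
  have : Fintype T := Fintype.ofFinite T
  let act : MulAction G T :=
    { smul := fun g x => ⟨g • (x : S), hT g x x.2⟩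
      one_smul := fun x => Subtype.ext (one_smul G (x : S))
      mul_smul := fun g h x => Subtype.ext (mul_smul g h (x : S)) }
  have hcoe : ∀ (g : G) (x : T), ((g • x : T) : S) = g • (x : S) := fun _ _ => rfl
  -- both sides count pairs
  have h1 : ∑ g : G, Nat.card {x : S // F^[m] x = g • x}
      = ∑ x : T, Nat.card {g : G // F^[m] (x : S) = g • (x : S)} := by
    have e1 : ∀ g : G, Nat.card {x : S // F^[m] x = g • x}
        = ∑ x : T, (if F^[m] (x : S) = g • (x : S) then 1 else 0) := by
      intro g
      rw [sum_boole, Nat.cast_id, ← Fintype.card_subtype, ← Nat.card_eq_fintype_card]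
      refine Nat.card_congr
        { toFun := fun x => ⟨⟨x.1, ⟨g, x.2.symm⟩⟩, x.2⟩
          invFun := fun x => ⟨x.1.1, x.2⟩
          left_inv := fun x => rfl
          right_inv := fun x => rfl }
    have e2 : ∀ x : T, Nat.card {g : G // F^[m] (x : S) = g • (x : S)}
        = ∑ g : G, (if F^[m] (x : S) = g • (x : S) then 1 else 0) := by
      intro x
      rw [sum_boole, Nat.cast_id, ← Fintype.card_subtype, ← Nat.card_eq_fintype_card]
    simp only [e1, e2]
    exact sum_comm
  have h2 : ∀ x : T, Nat.card {g : G // F^[m] (x : S) = g • (x : S)}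
      = Nat.card {g : G // g • x = x} := by
    intro x
    obtain ⟨h, hh⟩ := x.2
    have hh' : h • (x : S) = F^[m] (x : S) := hh
    refine Nat.card_congr
      { toFun := fun g => ⟨h⁻¹ * g.1, Subtype.ext ?_⟩
        invFun := fun g => ⟨h * g.1, ?_⟩
        left_inv := fun g => Subtype.ext (mul_inv_cancel_left h g.1)
        right_inv := fun g => Subtype.ext (inv_mul_cancel_left h g.1) }
    · rw [hcoe, mul_smul, ← g.2, ← hh', inv_smul_smul]
    · have h3 := congrArg Subtype.val g.2
      rw [hcoe] at h3
      rw [mul_smul, h3, hh']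
  have h3 : ∑ x : T, Nat.card {g : G // g • x = x}
      = ∑ g : G, Fintype.card (MulAction.fixedBy T g) := by
    have e1 : ∀ x : T, Nat.card {g : G // g • x = x} = ∑ g : G, (if g • x = x then 1 else 0) := by
      intro x
      rw [sum_boole, Nat.cast_id, ← Fintype.card_subtype, ← Nat.card_eq_fintype_card]
    have e2 : ∀ g : G, Fintype.card (MulAction.fixedBy T g)
        = ∑ x : T, (if g • x = x then 1 else 0) := by
      intro g
      rw [sum_boole, Nat.cast_id, ← Fintype.card_subtype]
      exact Fintype.card_congr (Equiv.refl _)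
    simp only [e1, e2]
    exact sum_comm
  have : Fintype (MulAction.orbitRel.Quotient G T) := Fintype.ofFinite _
  rw [h1, sum_congr rfl fun x _ => h2 x, h3, MulAction.sum_card_fixedBy_eq_card_orbits_mul_card_group,
    mul_comm]
  congr 1
  rw [← Nat.card_eq_fintype_card, quotPoints]
  -- orbits on `T`
  have hmem : ∀ x y : T, x ∈ MulAction.orbit G y ↔ (x : S) ∈ MulAction.orbit G (y : S) := by
    intro x y
    constructor
    · rintro ⟨g, hg⟩
      exact ⟨g, congrArg Subtype.val hg⟩
    · rintro ⟨g, hg⟩
      exact ⟨g, Subtype.ext hg⟩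
  refine Nat.card_congr (Equiv.ofBijective (fun O : MulAction.orbitRel.Quotient G T =>
    (⟨Quotient.map' (Subtype.val : T → S) (by
        intro x y h
        rw [MulAction.orbitRel_apply] at h ⊢
        exact (hmem x y).1 h) O, ?_⟩ : {O : MulAction.orbitRel.Quotient G S //
    ∃ x : S, (Quotient.mk'' x : MulAction.orbitRel.Quotient G S) = O ∧
      F^[m] x ∈ MulAction.orbit G x})) ⟨?_, ?_⟩)
  · induction O using Quotient.inductionOn' with
    | h x => exact ⟨x, rfl, x.2⟩
  · intro O O' h
    induction O using Quotient.inductionOn' with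
    | h x =>
      induction O' using Quotient.inductionOn' with
      | h y =>
        have h4 := congrArg Subtype.val h
        change (Quotient.mk'' (x : S) : MulAction.orbitRel.Quotient G S) = Quotient.mk'' (y : S) at h4
        rw [mk_eq] at h4
        rw [mk_eq]
        exact (hmem x y).2 h4
  · rintro ⟨O, x, rfl, hx⟩
    exact ⟨Quotient.mk'' ⟨x, hx⟩, rfl⟩

end

section
variable {G : Type} [Group G] [Fintype G] {E : Type} [Field E] [CharZero E] {V : Type}
  [AddCommGroup V] [Module E V]

/-- The projection onto the invariants. -/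
noncomputable def avg (σ : Representation E G V) : Module.End E V :=
  (Fintype.card G : E)⁻¹ • ∑ g : G, σ g

lemma mul_avg (σ : Representation E G V) (g : G) : σ g * avg σ = avg σ := by
  unfold avg
  rw [mul_smul_comm, mul_sum]
  congr 1
  refine Fintype.sum_equiv (Equiv.mulLeft g) _ _ fun h => ?_
  rw [Equiv.coe_mulLeft, map_mul]

lemma avg_apply_of_inv (σ : Representation E G V) {v : V} (hv : ∀ g, σ g v = v) :
    avg σ v = v := by
  have hcard : (Fintype.card G : E) ≠ 0 := Nat.cast_ne_zero.2 Fintype.card_ne_zero
  unfold avg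
  rw [LinearMap.smul_apply, LinearMap.sum_apply, sum_congr rfl fun g _ => hv g, sum_const,
    card_univ, ← Nat.cast_smul_eq_nsmul E, smul_smul, inv_mul_cancel₀ hcard, one_smul]

lemma avg_inv (σ : Representation E G V) (v : V) (g : G) : σ g (avg σ v) = avg σ v := by
  rw [← Module.End.mul_apply, mul_avg]

lemma avg_avg (σ : Representation E G V) (v : V) : avg σ (avg σ v) = avg σ v :=
  avg_apply_of_inv σ fun g => avg_inv σ v g

lemma avg_comm (σ : Representation E G V) {f : Module.End E V} (hf : ∀ g, f * σ g = σ g * f) :
    f * avg σ = avg σ * f := by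
  unfold avg
  rw [mul_smul_comm, smul_mul_assoc, mul_sum, sum_mul]
  congr 1
  exact sum_congr rfl fun g _ => hf g

variable [FiniteDimensional E V]

lemma trace_avg (σ : Representation E G V) (f : Module.End E V) :
    (Fintype.card G : E) * LinearMap.trace E V (avg σ * f)
      = ∑ g : G, LinearMap.trace E V (σ g * f) := by
  have hcard : (Fintype.card G : E) ≠ 0 := Nat.cast_ne_zero.2 Fintype.card_ne_zero
  unfold avg
  rw [smul_mul_assoc, map_smul, smul_eq_mul, ← mul_assoc, mul_inv_cancel₀ hcard, one_mul, sum_mul,
    map_sum]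

/-- The trace on the kernel of the projection. -/
theorem trace_ker (σ : Representation E G V) {f : Module.End E V}
    (hst : LinearMap.ker (avg σ) ≤ (LinearMap.ker (avg σ)).comap f) :
    LinearMap.trace E (LinearMap.ker (avg σ)) (f.restrict hst)
      = LinearMap.trace E V f - LinearMap.trace E V (avg σ * f) := by
  let i : LinearMap.ker (avg σ) →ₗ[E] V := (LinearMap.ker (avg σ)).subtype
  let π : V →ₗ[E] LinearMap.ker (avg σ) :=
    LinearMap.codRestrict (LinearMap.ker (avg σ)) (LinearMap.id - avg σ) (by
      intro v
      rw [LinearMap.mem_ker, LinearMap.sub_apply, LinearMap.id_apply, map_sub, avg_avg, sub_self])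
  have h1 : LinearMap.trace E V ((i.comp π).comp f) = LinearMap.trace E V f
      - LinearMap.trace E V (avg σ * f) := by
    have h2 : (i.comp π).comp f = f - avg σ * f := by
      apply LinearMap.ext
      intro v
      rfl
    rw [h2, map_sub]
  have h3 : f.restrict hst = (π.comp f).comp i := by
    apply LinearMap.ext
    intro v
    apply Subtype.ext
    have h4 : avg σ (f v) = 0 := hst v.2
    change f (v : V) = f (v : V) - avg σ (f (v : V))
    rw [h4, sub_zero]
  rw [h3, ← h1, LinearMap.trace_comp_comm', ← LinearMap.comp_assoc]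

lemma isCompl (σ : Representation E G V) : IsCompl (LinearMap.ker (avg σ)) σ.invariants := by
  refine IsCompl.of_eq ?_ ?_
  · rw [eq_bot_iff]
    rintro v ⟨h1, h2⟩
    rw [SetLike.mem_coe, LinearMap.mem_ker] at h1
    rw [SetLike.mem_coe, Representation.mem_invariants] at h2
    rw [Submodule.mem_bot, ← avg_apply_of_inv σ h2, h1]
  · rw [eq_top_iff]
    intro v _
    have h1 : v = (v - avg σ v) + avg σ v := (sub_add_cancel v _).symm
    rw [h1]
    refine Submodule.add_mem_sup ?_ ?_
    · rw [LinearMap.mem_ker, map_sub, avg_avg, sub_self]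
    · rw [Representation.mem_invariants]
      exact fun g => avg_inv σ v g

/-- The characteristic polynomial is the product of those on the kernel of the projection and on
the invariants. -/
theorem charpoly_mul (σ : Representation E G V) {f : Module.End E V}
    (hst : LinearMap.ker (avg σ) ≤ (LinearMap.ker (avg σ)).comap f)
    (hinv : σ.invariants ≤ σ.invariants.comap f) :
    f.charpoly = (f.restrict hst).charpoly * (f.restrict hinv).charpoly := by
  let e := Submodule.prodEquivOfIsCompl _ _ (isCompl σ)
  rw [← LinearMap.charpoly_prodMap, ← LinearEquiv.charpoly_conj e]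
  congr 1
  apply LinearMap.ext
  intro v
  obtain ⟨w, rfl⟩ := e.surjective v
  rw [LinearEquiv.conj_apply_apply, LinearEquiv.symm_apply_apply, LinearMap.prodMap_apply]
  simp only [e, Submodule.coe_prodEquivOfIsCompl', map_add]
  rfl

end

end Pool.Agent.Y134.PG
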