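import Mathlib

/-!
# Actions of a finite group on a set with a Frobenius map
-/

set_option autoImplicit false

namespace Pool.Agent.Y134.PG

open Polynomial

/-- The number of points of `S` whose orbit under `G` is stable under the `m`-th iterate of `F`. -/
noncomputable def overPoints (G : Type) [Group G] {S : Type} [MulAction G S] (F : S → S)
    (m : ℕ) : ℕ :=
  Nat.card {x : S // F^[m] x ∈ MulAction.orbit G x}

/-- The number of orbits of `G` on `S` which are stable under the `m`-th iterate of `F`. -/
noncomputable def quotPoints (G : Type) [Group G] {S : Type} [MulAction G S] (F : S → S)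
    (m : ℕ) : ℕ :=
  Nat.card {O : MulAction.orbitRel.Quotient G S //
    ∃ x : S, (Quotient.mk'' x : MulAction.orbitRel.Quotient G S) = O ∧
      F^[m] x ∈ MulAction.orbit G x}

/-- The cyclotomic polynomial of index `n` in the variable `Q X`. -/
noncomputable def cyc (R : Type) [CommRing R] (Q : R) (n : ℕ) : R[X] :=
  (cyclotomic n R).comp (C Q * X)

/-- The vectors on which the elements `g` of `Γ'` act as multiplication by `ε g`. -/
def tateVectors {E Γ V : Type} [Field E] [Group Γ] [AddCommGroup V] [Module E V]
    (ρ : Representation E Γ V) (ε : Γ →* Eˣ) (Γ' : Subgroup Γ) : Submodule E V where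
  carrier := {v | ∀ g ∈ Γ', ρ g v = (ε g : E) • v}
  add_mem' := by
    intro v w hv hw g hg
    rw [map_add, hv g hg, hw g hg, smul_add]
  zero_mem' := by
    intro g _
    rw [map_zero, smul_zero]
  smul_mem' := by
    intro c v hv g hg
    rw [map_smul, hv g hg, smul_comm]

end Pool.Agent.Y134.PG
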