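import Pool.Agent.Y134.PG.Defs
import Pool.Agent.W715.HS.OC

/-!
# Counting the points of a variety with an action of a finite `p`-group
-/

set_option autoImplicit false

namespace Pool.Agent.Y134.PG

open Finset Function

section
variable {G : Type} [Group G] {S : Type} [MulAction G S]

lemma iterate_comm {F : S → S} (hc : ∀ (g : G) (x : S), F (g • x) = g • F x) (m : ℕ) (g : G)
    (x : S) : F^[m] (g • x) = g • F^[m] x := by
  induction m with
  | zero => rfl
  | succ m ih => rw [iterate_succ_apply', iterate_succ_apply', ih, hc]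

lemma iterate_mul_smul {F : S → S} (hc : ∀ (g : G) (x : S), F (g • x) = g • F x) {m : ℕ} {g : G}
    {x : S} (h : F^[m] x = g • x) (k : ℕ) : F^[m * k] x = g ^ k • x := by
  induction k with
  | zero => simp
  | succ k ih =>
    rw [Nat.mul_succ, Nat.add_comm, iterate_add_apply, ih, iterate_comm hc, h, smul_smul, pow_succ]

/-- The map induced on the orbits. -/
def Fq (F : S → S) (hc : ∀ (g : G) (x : S), F (g • x) = g • F x) :
    MulAction.orbitRel.Quotient G S → MulAction.orbitRel.Quotient G S :=
  Quotient.map' F (by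
    intro x y h
    rw [MulAction.orbitRel_apply] at h ⊢
    obtain ⟨g, rfl⟩ := h
    exact ⟨g, (hc g y).symm⟩)

lemma Fq_mk {F : S → S} (hc : ∀ (g : G) (x : S), F (g • x) = g • F x) (x : S) :
    Fq F hc (Quotient.mk'' x) = Quotient.mk'' (F x) := rfl

lemma Fq_iterate {F : S → S} (hc : ∀ (g : G) (x : S), F (g • x) = g • F x) (m : ℕ) (x : S) :
    (Fq F hc)^[m] (Quotient.mk'' x) = Quotient.mk'' (F^[m] x) := by
  induction m with
  | zero => rfl
  | succ m ih => rw [iterate_succ_apply', iterate_succ_apply', ih, Fq_mk]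

lemma mk_eq {x y : S} : (Quotient.mk'' x : MulAction.orbitRel.Quotient G S) = Quotient.mk'' y
    ↔ x ∈ MulAction.orbit G y := by
  rw [Quotient.eq'', MulAction.orbitRel_apply]

lemma Fq_inj {F : S → S} (hF : Injective F) (hc : ∀ (g : G) (x : S), F (g • x) = g • F x) :
    Injective (Fq F hc) := by
  intro O O' h
  induction O using Quotient.inductionOn' with
  | h x =>
    induction O' using Quotient.inductionOn' with
    | h y =>
      rw [Fq_mk, Fq_mk, mk_eq] at h
      obtain ⟨g, hg⟩ := h
      rw [mk_eq]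
      refine ⟨g, hF ?_⟩
      change F (g • y) = F x
      rw [hc]
      exact hg

lemma iterate_fix {F : S → S} (hc : ∀ (g : G) (x : S), F (g • x) = g • F x) {m : ℕ} {x : S} :
    (Fq F hc)^[m] (Quotient.mk'' x) = Quotient.mk'' x ↔ F^[m] x ∈ MulAction.orbit G x := by
  rw [Fq_iterate, mk_eq]

variable {p s : ℕ}

lemma fix_of_over {F : S → S} (hc : ∀ (g : G) (x : S), F (g • x) = g • F x)
    (hs : Nat.card G = p ^ s) {m : ℕ} {x : S} (h : F^[m] x ∈ MulAction.orbit G x) :
    F^[m * p ^ s] x = x := by
  obtain ⟨g, hg⟩ := h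
  have h1 : F^[m] x = g • x := hg.symm
  rw [iterate_mul_smul hc h1, ← hs, pow_card_eq_one', one_smul]

/-- The period of a point over that of its orbit. -/
lemma exists_period (hp : p.Prime) {F : S → S} (hc : ∀ (g : G) (x : S), F (g • x) = g • F x)
    (hs : Nat.card G = p ^ s) {x : S}
    (h : 0 < minimalPeriod (Fq F hc) (Quotient.mk'' x)) :
    ∃ i ≤ s, minimalPeriod F x = minimalPeriod (Fq F hc) (Quotient.mk'' x) * p ^ i := by
  set d := minimalPeriod (Fq F hc) (Quotient.mk'' x : MulAction.orbitRel.Quotient G S) with hd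
  have h1 : F^[d] x ∈ MulAction.orbit G x := by
    rw [← iterate_fix hc]
    exact iterate_minimalPeriod
  have h2 : F^[d * p ^ s] x = x := fix_of_over hc hs h1
  have h3 : minimalPeriod F x ∣ d * p ^ s := IsPeriodicPt.minimalPeriod_dvd h2
  have h4 : d ∣ minimalPeriod F x := by
    apply IsPeriodicPt.minimalPeriod_dvd
    change (Fq F hc)^[minimalPeriod F x] (Quotient.mk'' x) = Quotient.mk'' x
    rw [iterate_fix, iterate_minimalPeriod]
    exact MulAction.mem_orbit_self x
  obtain ⟨k, hk⟩ := h4
  rw [hk] at h3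
  have h5 : k ∣ p ^ s := Nat.dvd_of_mul_dvd_mul_left h h3
  obtain ⟨i, hi, rfl⟩ := (Nat.dvd_prime_pow hp).1 h5
  exact ⟨i, hi, hk⟩

/-- The numbers of closed points. -/
theorem dyn (hp : p.Prime) (hs : Nat.card G = p ^ s) (F : S → S) (hF : Injective F)
    (hc : ∀ (g : G) (x : S), F (g • x) = g • F x)
    (hfin : ∀ m, 1 ≤ m → Finite {x : S // F^[m] x = x}) :
    ∃ (a : ℕ → ℕ → ℕ) (o : ℕ → ℕ), ∀ n, 1 ≤ n → ∀ M, n ≤ M →
      (Nat.card {x : S // F^[n] x = x} = ∑ t ∈ Icc 1 M ×ˢ range (s + 1),
        (if t.1 * p ^ t.2 ∣ n then t.1 * p ^ t.2 * a t.1 t.2 else 0)) ∧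
      (overPoints G F n = ∑ t ∈ Icc 1 M ×ˢ range (s + 1),
        (if t.1 ∣ n then t.1 * (p ^ t.2 * a t.1 t.2) else 0)) ∧
      (quotPoints G F n = ∑ t ∈ Icc 1 M, (if t ∣ n then t * o t else 0)) := by
  classical
  let q : S → MulAction.orbitRel.Quotient G S := fun x => Quotient.mk'' x
  let d : S → ℕ := fun x => minimalPeriod (Fq F hc) (q x)
  let D : ℕ × ℕ → Set S := fun t => {x | d x = t.1 ∧ minimalPeriod F x = t.1 * p ^ t.2}
  let Z : ℕ → Set (MulAction.orbitRel.Quotient G S) := fun t => {O | minimalPeriod (Fq F hc) O = t}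
  have hFix : ∀ n, 1 ≤ n → {x : S | F^[n] x = x}.Finite := fun n hn =>
    Set.finite_coe_iff.1 (hfin n hn)
  have hOver : ∀ n, 1 ≤ n → {x : S | F^[n] x ∈ MulAction.orbit G x}.Finite := by
    intro n hn
    refine (hFix (n * p ^ s) (Nat.mul_pos hn (pow_pos hp.pos _))).subset ?_
    intro x hx
    exact fix_of_over hc hs hx
  have hQuot : ∀ n, 1 ≤ n → {O : MulAction.orbitRel.Quotient G S | (Fq F hc)^[n] O = O}.Finite := by
    intro n hn
    refine ((hOver n hn).image q).subset ?_
    intro O hO
    induction O using Quotient.inductionOn' with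
    | h x => exact ⟨x, (iterate_fix hc).1 hO, rfl⟩
  have hDfin : ∀ t : ℕ × ℕ, 1 ≤ t.1 → (D t).Finite := by
    intro t ht
    refine (hFix (t.1 * p ^ t.2) (Nat.mul_pos ht (pow_pos hp.pos _))).subset ?_
    intro x hx
    change F^[t.1 * p ^ t.2] x = x
    rw [← hx.2]
    exact iterate_minimalPeriod
  have hZfin : ∀ t, 1 ≤ t → (Z t).Finite := by
    intro t ht
    refine (hQuot t ht).subset ?_
    intro O hO
    change (Fq F hc)^[t] O = O
    have : minimalPeriod (Fq F hc) O = t := hO
    rw [← this]
    exact iterate_minimalPeriod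
  -- divisibility
  have hDdvd : ∀ t : ℕ × ℕ, 1 ≤ t.1 → t.1 * p ^ t.2 ∣ (D t).ncard := by
    intro t ht
    have hpos : 0 < t.1 * p ^ t.2 := Nat.mul_pos ht (pow_pos hp.pos _)
    rw [Set.ncard_eq_toFinset_card _ (hDfin t ht)]
    refine Pool.Agent.W715.HS.OC.dvd_card_of_minimalPeriod F hF _ hpos _ _ rfl ?_ ?_
    · intro x hx
      rw [Set.Finite.mem_toFinset] at hx ⊢
      have hx1 : minimalPeriod (Fq F hc) (q x) = t.1 := hx.1
      have hx2 : minimalPeriod F x = t.1 * p ^ t.2 := hx.2
      have h1 : x ∈ periodicPts F := minimalPeriod_pos_iff_mem_periodicPts.1 (by rw [hx2]; exact hpos)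
      have h2 : q x ∈ periodicPts (Fq F hc) :=
        minimalPeriod_pos_iff_mem_periodicPts.1 (by rw [hx1]; exact ht)
      refine ⟨?_, ?_⟩
      · change minimalPeriod (Fq F hc) (Fq F hc (q x)) = t.1
        rw [minimalPeriod_apply h2, hx1]
      · rw [minimalPeriod_apply h1, hx2]
    · intro x hx
      rw [Set.Finite.mem_toFinset] at hx
      exact hx.2
  have hZdvd : ∀ t, 1 ≤ t → t ∣ (Z t).ncard := by
    intro t ht
    rw [Set.ncard_eq_toFinset_card _ (hZfin t ht)]
    refine Pool.Agent.W715.HS.OC.dvd_card_of_minimalPeriod (Fq F hc) (Fq_inj hF hc) _ ht _ _ rfl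
      ?_ ?_
    · intro O hO
      rw [Set.Finite.mem_toFinset] at hO ⊢
      have h1 : minimalPeriod (Fq F hc) O = t := hO
      have h2 : O ∈ periodicPts (Fq F hc) :=
        minimalPeriod_pos_iff_mem_periodicPts.1 (by rw [h1]; exact ht)
      change minimalPeriod (Fq F hc) (Fq F hc O) = t
      rw [minimalPeriod_apply h2, h1]
    · intro O hO
      rw [Set.Finite.mem_toFinset] at hO
      exact hO
  -- the type of a point
  have hτ : ∀ x : S, ∃ i, 0 < d x → i ≤ s ∧ minimalPeriod F x = d x * p ^ i := by
    intro x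
    by_cases hx : 0 < d x
    · obtain ⟨i, hi, h⟩ := exists_period hp hc hs hx
      exact ⟨i, fun _ => ⟨hi, h⟩⟩
    · exact ⟨0, fun h => (hx h).elim⟩
  choose ι hι using hτ
  refine ⟨fun d i => (D (d, i)).ncard / (d * p ^ i), fun t => (Z t).ncard / t, ?_⟩
  intro n hn M hM
  have hdpos : ∀ x, F^[n] x ∈ MulAction.orbit G x → 0 < d x ∧ d x ∣ n := by
    intro x hx
    have h1 : IsPeriodicPt (Fq F hc) n (q x) := (iterate_fix hc).2 hx
    exact ⟨h1.minimalPeriod_pos hn, h1.minimalPeriod_dvd⟩
  have hover : ∀ x, F^[n] x = x → F^[n] x ∈ MulAction.orbit G x := by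
    intro x hx
    rw [hx]
    exact MulAction.mem_orbit_self x
  have hinj : ∀ {d i j : ℕ}, 0 < d → d * p ^ i = d * p ^ j → i = j := by
    intro d i j hd h
    exact Nat.pow_right_injective hp.two_le (Nat.eq_of_mul_eq_mul_left hd h)
  refine ⟨?_, ?_, ?_⟩
  · have h0 : Nat.card {x : S // F^[n] x = x} = (hFix n hn).toFinset.card := by
      rw [← Set.ncard_eq_toFinset_card _ (hFix n hn)]
      rfl
    rw [h0, card_eq_sum_card_fiberwise (f := fun x => (d x, ι x))
      (t := Icc 1 M ×ˢ range (s + 1))]
    · refine sum_congr rfl fun t ht => ?_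
      rw [mem_product, mem_Icc, mem_range] at ht
      split_ifs with hdvd
      · rw [Nat.mul_div_cancel' (hDdvd t ht.1.1), Set.ncard_eq_toFinset_card _ (hDfin t ht.1.1)]
        congr 1
        ext x
        rw [mem_filter, Set.Finite.mem_toFinset, Set.Finite.mem_toFinset]
        constructor
        · rintro ⟨h1, h2⟩
          have h3 := hι x (hdpos x (hover x h1)).1
          rw [← h2]
          exact ⟨rfl, h3.2⟩
        · rintro ⟨h1, h2⟩
          have h3 : 0 < d x := by rw [h1]; exact ht.1.1
          refine ⟨?_, ?_⟩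
          · change F^[n] x = x
            have h4 : IsPeriodicPt F (t.1 * p ^ t.2) x := by
              rw [← h2]
              exact isPeriodicPt_minimalPeriod F x
            exact h4.trans_dvd hdvd
          · have h5 := (hι x h3).2
            rw [h2, ← h1] at h5
            exact Prod.ext h1 (hinj h3 h5).symm
      · rw [card_eq_zero, filter_eq_empty_iff]
        intro x hx hxt
        rw [Set.Finite.mem_toFinset] at hx
        apply hdvd
        have h3 := hι x (hdpos x (hover x hx)).1
        rw [← hxt]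
        change d x * p ^ ι x ∣ n
        rw [← h3.2]
        exact IsPeriodicPt.minimalPeriod_dvd hx
    · intro x hx
      rw [Finset.mem_coe, Set.Finite.mem_toFinset] at hx
      have h1 := hdpos x (hover x hx)
      rw [Finset.mem_coe, mem_product, mem_Icc, mem_range]
      exact ⟨⟨h1.1, (Nat.le_of_dvd hn h1.2).trans hM⟩, Nat.lt_succ_of_le (hι x h1.1).1⟩
  · have h0 : overPoints G F n = (hOver n hn).toFinset.card := by
      rw [← Set.ncard_eq_toFinset_card _ (hOver n hn)]
      rfl
    rw [h0, card_eq_sum_card_fiberwise (f := fun x => (d x, ι x))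
      (t := Icc 1 M ×ˢ range (s + 1))]
    · refine sum_congr rfl fun t ht => ?_
      rw [mem_product, mem_Icc, mem_range] at ht
      split_ifs with hdvd
      · rw [← mul_assoc, Nat.mul_div_cancel' (hDdvd t ht.1.1),
          Set.ncard_eq_toFinset_card _ (hDfin t ht.1.1)]
        congr 1
        ext x
        rw [mem_filter, Set.Finite.mem_toFinset, Set.Finite.mem_toFinset]
        constructor
        · rintro ⟨h1, h2⟩
          have h3 := hι x (hdpos x h1).1
          rw [← h2]
          exact ⟨rfl, h3.2⟩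
        · rintro ⟨h1, h2⟩
          have h3 : 0 < d x := by rw [h1]; exact ht.1.1
          refine ⟨?_, ?_⟩
          · change F^[n] x ∈ MulAction.orbit G x
            rw [← iterate_fix hc]
            have h4 : IsPeriodicPt (Fq F hc) t.1 (q x) := by
              have h6 : minimalPeriod (Fq F hc) (q x) = t.1 := h1
              rw [← h6]
              exact isPeriodicPt_minimalPeriod _ _
            exact h4.trans_dvd hdvd
          · have h5 := (hι x h3).2
            rw [h2, ← h1] at h5
            exact Prod.ext h1 (hinj h3 h5).symm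
      · rw [card_eq_zero, filter_eq_empty_iff]
        intro x hx hxt
        rw [Set.Finite.mem_toFinset] at hx
        apply hdvd
        rw [← hxt]
        exact (hdpos x hx).2
    · intro x hx
      rw [Finset.mem_coe, Set.Finite.mem_toFinset] at hx
      have h1 := hdpos x hx
      rw [Finset.mem_coe, mem_product, mem_Icc, mem_range]
      exact ⟨⟨h1.1, (Nat.le_of_dvd hn h1.2).trans hM⟩, Nat.lt_succ_of_le (hι x h1.1).1⟩
  · have h0 : quotPoints G F n = (hQuot n hn).toFinset.card := by
      rw [← Set.ncard_eq_toFinset_card _ (hQuot n hn), quotPoints]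
      refine Nat.card_congr (Equiv.subtypeEquivRight fun O => ?_)
      constructor
      · rintro ⟨x, rfl, hx⟩
        exact (iterate_fix hc).2 hx
      · intro hO
        induction O using Quotient.inductionOn' with
        | h x => exact ⟨x, rfl, (iterate_fix hc).1 hO⟩
    rw [h0, card_eq_sum_card_fiberwise (f := fun O => minimalPeriod (Fq F hc) O) (t := Icc 1 M)]
    · refine sum_congr rfl fun t ht => ?_
      rw [mem_Icc] at ht
      split_ifs with hdvd
      · rw [Nat.mul_div_cancel' (hZdvd t ht.1), Set.ncard_eq_toFinset_card _ (hZfin t ht.1)]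
        congr 1
        ext O
        rw [mem_filter, Set.Finite.mem_toFinset, Set.Finite.mem_toFinset]
        constructor
        · rintro ⟨_, h2⟩
          exact h2
        · intro h1
          refine ⟨?_, h1⟩
          change (Fq F hc)^[n] O = O
          have h4 : IsPeriodicPt (Fq F hc) t O := by
            have h6 : minimalPeriod (Fq F hc) O = t := h1
            rw [← h6]
            exact isPeriodicPt_minimalPeriod _ _
          exact h4.trans_dvd hdvd
      · rw [card_eq_zero, filter_eq_empty_iff]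
        intro O hO hOt
        rw [Set.Finite.mem_toFinset] at hO
        apply hdvd
        rw [← hOt]
        exact IsPeriodicPt.minimalPeriod_dvd hO
    · intro O hO
      rw [Finset.mem_coe, Set.Finite.mem_toFinset] at hO
      have h1 : IsPeriodicPt (Fq F hc) n O := hO
      rw [Finset.mem_coe, mem_Icc]
      exact ⟨h1.minimalPeriod_pos hn, (Nat.le_of_dvd hn h1.minimalPeriod_dvd).trans hM⟩

end

end Pool.Agent.Y134.PG
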